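import Pool.Agent.K1H54.NU.Stm

/-!
# Project NU: the theorem of Arzelà-Ascoli with diagonal sequence
-/

open Set Filter Topology MeasureTheory
open scoped ENNReal

set_option autoImplicit false

namespace Pool.Agent.K1H66.NU

open Pool.Agent.K1H54.NU

/-- uniform Cauchy property from the convergence at the nonnegative rational points -/
lemma cauchy_of_rat (F : ℕ → ℝ → ℝ) (M : ℝ) (hM : 0 ≤ M)
    (hL : ∀ n s t, 0 ≤ s → 0 ≤ t → |F n t - F n s| ≤ M * |t - s|)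
    (hq : ∀ q : ℚ, 0 ≤ q → ∃ a : ℝ, Tendsto (fun n => F n q) atTop (𝓝 a)) (R : ℝ) :
    UniformCauchySeqOn F atTop (Icc 0 R) := by
  rw [Metric.uniformCauchySeqOn_iff]
  intro ε hε
  have hδ : 0 < ε / (3 * (M + 1)) := by positivity
  obtain ⟨δ, hδ0, hδ1⟩ := exists_rat_btwn hδ
  have hδ0' : (0 : ℚ) < δ := by exact_mod_cast hδ0
  set J : ℕ := ⌊R / δ⌋₊ with hJ
  have hC : ∀ j : ℕ, ∃ N : ℕ, ∀ m ≥ N, ∀ n ≥ N,
      dist (F m ((j : ℚ) * δ : ℚ)) (F n ((j : ℚ) * δ : ℚ)) < ε / 3 := by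
    intro j
    obtain ⟨a, ha⟩ := hq ((j : ℚ) * δ) (by positivity)
    exact Metric.cauchySeq_iff.1 ha.cauchySeq (ε / 3) (by positivity)
  choose N hN using hC
  refine ⟨(Finset.range (J + 1)).sup N, fun m hm n hn t ht => ?_⟩
  set j : ℕ := ⌊t / δ⌋₊ with hj
  have hjJ : j ≤ J := Nat.floor_mono (div_le_div_of_nonneg_right ht.2 hδ0.le)
  have hNj : N j ≤ (Finset.range (J + 1)).sup N :=
    Finset.le_sup (f := N) (Finset.mem_range.2 (Nat.lt_succ_of_le hjJ))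
  have h1 := hN j m (hNj.trans hm) n (hNj.trans hn)
  have htd : 0 ≤ t / δ := div_nonneg ht.1 hδ0.le
  have h2 : (j : ℝ) * δ ≤ t := by
    have := Nat.floor_le htd
    rwa [le_div_iff₀ hδ0] at this
  have h3 : t < (j : ℝ) * δ + δ := by
    have := Nat.lt_floor_add_one (t / δ)
    rw [div_lt_iff₀ hδ0] at this
    linarith
  have hpt : (((j : ℚ) * δ : ℚ) : ℝ) = (j : ℝ) * δ := by push_cast; ring
  rw [hpt] at h1
  have hj0 : (0 : ℝ) ≤ (j : ℝ) * δ := by positivity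
  have h4 : ∀ k, |F k t - F k ((j : ℝ) * δ)| < ε / 3 := by
    intro k
    have h5 := hL k ((j : ℝ) * δ) t hj0 ht.1
    have h6 : |t - (j : ℝ) * δ| ≤ δ := by rw [abs_le]; constructor <;> linarith
    have h7 : M * |t - (j : ℝ) * δ| ≤ M * δ := mul_le_mul_of_nonneg_left h6 hM
    have h8 : M * δ ≤ (M + 1) * δ := by nlinarith
    have h9 : (M + 1) * (δ : ℝ) < ε / 3 := by
      have : (M + 1) * (ε / (3 * (M + 1))) = ε / 3 := by field_simp
      rw [← this]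
      exact mul_lt_mul_of_pos_left hδ1 (by positivity)
    linarith
  rw [Real.dist_eq] at h1 ⊢
  have h5 := h4 m
  have h6 := h4 n
  rw [abs_lt] at *
  constructor <;> linarith

theorem t_AA : S_AA := by
  intro ι f M hι hb hL
  have := hι
  -- the values at the nonnegative rational points
  set K : Set (ι × {q : ℚ // 0 ≤ q} → ℝ) := Set.pi univ fun p => Icc (-(M p.1)) (M p.1) with hK
  have hKc : IsCompact K := isCompact_univ_pi fun p => isCompact_Icc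
  obtain ⟨a, -, φ, hφ, hlim⟩ := hKc.tendsto_subseq
    (x := fun n (p : ι × {q : ℚ // 0 ≤ q}) => f n p.1 ((p.2 : ℚ) : ℝ)) (fun n p _ => by
      have := hb n p.1 ((p.2 : ℚ) : ℝ) (by exact_mod_cast p.2.2)
      exact abs_le.1 this)
  have hlim' : ∀ i (q : ℚ), 0 ≤ q → ∃ c : ℝ, Tendsto (fun n => f (φ n) i q) atTop (𝓝 c) :=
    fun i q hq => ⟨a (i, ⟨q, hq⟩), (tendsto_pi_nhds.1 hlim) (i, ⟨q, hq⟩)⟩
  have hM : ∀ i, 0 ≤ M i := fun i => (abs_nonneg _).trans (hb 0 i 0 le_rfl)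
  have hC : ∀ i R, UniformCauchySeqOn (fun n t => f (φ n) i t) atTop (Icc 0 R) := fun i R =>
    cauchy_of_rat _ (M i) (hM i) (fun n s t hs ht => hL (φ n) i s t hs ht) (hlim' i) R
  have hpt : ∀ i t, ∃ c : ℝ, 0 ≤ t → Tendsto (fun n => f (φ n) i t) atTop (𝓝 c) := by
    intro i t
    by_cases ht : 0 ≤ t
    · obtain ⟨c, hc⟩ := cauchySeq_tendsto_of_complete ((hC i t).cauchySeq ⟨ht, le_rfl⟩)
      exact ⟨c, fun _ => hc⟩
    · exact ⟨0, fun h => absurd h ht⟩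
  choose g hg using hpt
  exact ⟨φ, g, hφ, fun i R => (hC i R).tendstoUniformlyOn_of_tendsto fun t ht => hg i t ht.1⟩

end Pool.Agent.K1H66.NU
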