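import Pool.Agent.K1H54.NU.StmR

/-!
# Project NU: what remains in each shell of the cascade at the blow-up time
-/

open Set Filter Topology MeasureTheory

set_option autoImplicit false

namespace Pool.Agent.K1H66.NU

open Pool.Agent.K1H54.NU Pool.Agent.K1H54.LO

section

variable {lam ε c₀ T : ℝ} {d : ℕ → ℝ} {y z E : ℕ → ℝ → ℝ} {t a : ℕ → ℝ}

lemma apos (hS : Stages lam ε c₀ T y z E t a) (n : ℕ) : 0 < a n :=
  lt_of_lt_of_le (pow_pos (by norm_num) n) (hS.st n).ha

lemma Eanti (h : Red lam ε c₀ d T y z E) {k m : ℕ} (hkm : k ≤ m) {τ : ℝ} (hτ : τ ∈ Ico 0 T) :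
    E m τ ≤ E k τ := by
  induction m, hkm using Nat.le_induction with
  | base => exact le_rfl
  | succ m _ ih =>
    have := h.le m τ hτ
    nlinarith [sq_nonneg (y m τ), sq_nonneg (z m τ)]

lemma exists_i (hS : Stages lam ε c₀ T y z E t a) (n : ℕ) {s : ℝ} (hs : s < T) :
    ∃ i, s ≤ t (n + i) := by
  obtain ⟨m, hm⟩ := ((hS.lim.eventually (lt_mem_nhds hs)).and (eventually_ge_atTop n)).exists
  exact ⟨m - n, by rw [Nat.add_sub_cancel' hm.2]; exact hm.1.le⟩

/-- the amplitude of the later stages -/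
lemma amp_i (hS : Stages lam ε c₀ T y z E t a) (n i : ℕ) :
    (1 - 1 / 10 ^ 6) ^ i * a n ≤ a (n + i) := by
  induction i with
  | zero => simp
  | succ i ih =>
    have h1 := hS.amp (n + i)
    have h2 : (1 - 1 / 10 ^ 6 : ℝ) * ((1 - 1 / 10 ^ 6) ^ i * a n) ≤ (1 - 1 / 10 ^ 6) * a (n + i) :=
      mul_le_mul_of_nonneg_left ih (by norm_num)
    rw [pow_succ]
    have e : n + (i + 1) = n + i + 1 := by ring
    rw [e]
    linarith

/-- the total time after the stage `n` -/
lemma time_i (hc0 : 0 < c₀) (hlb : 10 ^ 13 ≤ lam) (hS : Stages lam ε c₀ T y z E t a) (n i : ℕ) :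
    c₀ * lam ^ n * a n * (t (n + 1 + i) - t n) ≤ 520 * lam + 2080 * (1 - (1 / 2) ^ i) := by
  have hl : 0 < lam := lt_of_lt_of_le (by norm_num) hlb
  induction i with
  | zero =>
    have := hS.dur n
    simp only [pow_zero, sub_self, mul_zero, add_zero]
    linarith
  | succ i ih =>
    have h1 := hS.dur (n + 1 + i)
    have h2 := amp_i hS n (i + 1)
    have e : n + (i + 1) = n + 1 + i := by ring
    rw [e] at h2
    have hca : 0 < c₀ * lam ^ n * a n := by have := apos hS n; positivity
    set Δ := t (n + 1 + i + 1) - t (n + 1 + i) with hΔ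
    have hΔ0 : 0 ≤ Δ := sub_nonneg.2 (hS.mono _)
    have h3 : c₀ * lam ^ n * a n * (lam / 2 * 2 ^ i) ≤ c₀ * lam ^ (n + 1 + i) * a (n + 1 + i) := by
      have h4 : lam / 2 * 2 ^ i ≤ lam ^ (1 + i) * (1 - 1 / 10 ^ 6) ^ (i + 1) := by
        have e1 : lam ^ (1 + i) * (1 - 1 / 10 ^ 6 : ℝ) ^ (i + 1) =
            (lam * (1 - 1 / 10 ^ 6)) * (lam * (1 - 1 / 10 ^ 6)) ^ i := by
          rw [mul_pow]; ring
        rw [e1]
        have h5 : lam / 2 ≤ lam * (1 - 1 / 10 ^ 6) := by nlinarith
        have h6 : (2 : ℝ) ≤ lam * (1 - 1 / 10 ^ 6) := by nlinarith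
        have h7 : (2 : ℝ) ^ i ≤ (lam * (1 - 1 / 10 ^ 6)) ^ i := pow_le_pow_left₀ (by norm_num) h6 i
        exact mul_le_mul h5 h7 (by positivity) (by positivity)
      calc c₀ * lam ^ n * a n * (lam / 2 * 2 ^ i)
          ≤ c₀ * lam ^ n * a n * (lam ^ (1 + i) * (1 - 1 / 10 ^ 6) ^ (i + 1)) :=
            mul_le_mul_of_nonneg_left h4 hca.le
        _ = c₀ * lam ^ (n + 1 + i) * ((1 - 1 / 10 ^ 6) ^ (i + 1) * a n) := by ring
        _ ≤ _ := mul_le_mul_of_nonneg_left h2 (by positivity)
    have h4 : c₀ * lam ^ n * a n * Δ * (lam / 2 * 2 ^ i) ≤ 520 * lam := by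
      calc c₀ * lam ^ n * a n * Δ * (lam / 2 * 2 ^ i)
          = Δ * (c₀ * lam ^ n * a n * (lam / 2 * 2 ^ i)) := by ring
        _ ≤ Δ * (c₀ * lam ^ (n + 1 + i) * a (n + 1 + i)) := mul_le_mul_of_nonneg_left h3 hΔ0
        _ ≤ _ := h1
    have h5 : c₀ * lam ^ n * a n * Δ ≤ 1040 * (1 / 2) ^ i := by
      have h6 : 0 < lam / 2 * 2 ^ i := by positivity
      have e2 : 1040 * (1 / 2 : ℝ) ^ i * (lam / 2 * 2 ^ i) = 520 * lam := by
        have : (1 / 2 : ℝ) ^ i * 2 ^ i = 1 := by rw [← mul_pow]; norm_num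
        calc 1040 * (1 / 2 : ℝ) ^ i * (lam / 2 * 2 ^ i) = 520 * lam * ((1 / 2 : ℝ) ^ i * 2 ^ i) := by ring
          _ = _ := by rw [this, mul_one]
      rw [← e2] at h4
      exact le_of_mul_le_mul_right h4 h6
    have e3 : t (n + 1 + (i + 1)) - t n = Δ + (t (n + 1 + i) - t n) := by
      rw [hΔ, show n + 1 + (i + 1) = n + 1 + i + 1 by ring]; ring
    rw [e3, mul_add, pow_succ]
    linarith

lemma time_le (hc0 : 0 < c₀) (hlb : 10 ^ 13 ≤ lam) (hS : Stages lam ε c₀ T y z E t a) (n : ℕ)
    {s : ℝ} (hs : s < T) : c₀ * lam ^ n * a n * (s - t n) ≤ 521 * lam := by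
  have hl : 0 < lam := lt_of_lt_of_le (by norm_num) hlb
  obtain ⟨i, hi⟩ := exists_i hS (n + 1) hs
  have h1 := time_i hc0 hlb hS n i
  have hca : 0 < c₀ * lam ^ n * a n := by have := apos hS n; positivity
  have h2 : c₀ * lam ^ n * a n * (s - t n) ≤ c₀ * lam ^ n * a n * (t (n + 1 + i) - t n) :=
    mul_le_mul_of_nonneg_left (by linarith) hca.le
  have h3 : (0 : ℝ) < (1 / 2) ^ i := by positivity
  have h4 : (2080 : ℝ) ≤ lam := le_trans (by norm_num) hlb
  linarith

/-- the energy in the shells `≥ k` after the stage `k + 1` -/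
lemma energy_i (hc0 : 0 < c₀) (hlb : 10 ^ 13 ≤ lam) (h : Red lam ε c₀ d T y z E)
    (hS : Stages lam ε c₀ T y z E t a) (k i : ℕ) : ∀ s, t (k + 1) ≤ s → s < T →
    s ≤ t (k + 1 + i) →
    √(E k s) ≤ (1 + 51 / 10 ^ 8 + 1 / 10 ^ 9 * (1 - (1 / 2) ^ i)) * a (k + 1) := by
  have hl : 0 < lam := lt_of_lt_of_le (by norm_num) hlb
  have ha := apos hS (k + 1)
  induction i with
  | zero =>
    intro s h1 _ h2
    have h3 : s = t (k + 1) := le_antisymm h2 h1
    rw [h3]
    have h0 : √(E k (t (k + 1))) ≤ (1 + 51 / 10 ^ 8) * a (k + 1) := by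
      rw [show (1 + 51 / 10 ^ 8) * a (k + 1) = √(((1 + 51 / 10 ^ 8) * a (k + 1)) ^ 2) from
        (Real.sqrt_sq (by positivity)).symm]
      refine Real.sqrt_le_sqrt (((hS.st (k + 1)).em k rfl).trans ?_)
      rw [mul_pow]
      gcongr
      norm_num
    simpa using h0
  | succ i ih =>
    intro s h1 hsT h2
    have hpow : (0 : ℝ) < (1 / 2) ^ i := by positivity
    rcases le_total s (t (k + 1 + i)) with h3 | h3
    · refine (ih s h1 hsT h3).trans (mul_le_mul_of_nonneg_right ?_ ha.le)
      have : (1 / 2 : ℝ) ^ (i + 1) ≤ (1 / 2) ^ i := by rw [pow_succ]; linarith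
      linarith
    · set m := k + 1 + i with hm
      have htm0 : 0 ≤ t m := (hS.st m).mem.1
      have htmT : t m < T := (hS.st m).mem.2
      have htk : t (k + 1) ≤ t m := monotone_nat_of_le_succ hS.mono (by omega)
      have hIH := ih (t m) htk htmT le_rfl
      have ham := apos hS m
      have hwm : ∀ r, t m ≤ r → r ≤ s → (r - t m) * (c₀ * lam ^ m * a m) ≤ 520 * lam := by
        intro r _ hr2
        refine le_trans ?_ (hS.dur m)
        have e : t (k + 1 + (i + 1)) = t (m + 1) := by rw [hm]; congr 1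
        rw [e] at h2
        have : 0 ≤ c₀ * lam ^ m * a m := by positivity
        exact mul_le_mul_of_nonneg_right (by linarith) this
      have hstep : √(E k s) ≤ √(E k (t m)) + 1 / 10 ^ 9 * (1 / 2) ^ (i + 1) * a (k + 1) := by
        rcases k with _ | j
        · have := dec0 h htm0 h3 hsT
          have : 0 ≤ 1 / 10 ^ 9 * (1 / 2 : ℝ) ^ (i + 1) * a (0 + 1) := by positivity
          linarith
        · set Z := ((1 + 1 / 10 ^ 9) * ((11 / 10 : ℝ) ^ (m - j) * a m)) ^ 2 with hZ
          have e2 : m - j = i + 2 := by omega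
          have hg := grow1 hc0 hl h j htm0 h3 hsT (Z := Z) (by positivity) (fun r hr => by
            have hrT : r ∈ Ico 0 T := ⟨htm0.trans hr.1, hr.2.trans_lt hsT⟩
            have h4 := low hc0 hlb h (hS.st m) ham j (by omega) r hr.1 hrT.2 (hwm r hr.1 hr.2)
            calc z j r ^ 2 ≤ E j r := h.zE j hrT
              _ = √(E j r) ^ 2 := (Real.sq_sqrt (h.nonneg j r hrT)).symm
              _ ≤ Z := pow_le_pow_left₀ (Real.sqrt_nonneg _) h4 2)
          refine hg.trans ?_
          have h5 : c₀ * lam ^ j * (s - t m) * a m ≤ 520 / lam ^ (i + 1) := by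
            rw [le_div_iff₀ (by positivity)]
            have e3 : (s - t m) * (c₀ * lam ^ m * a m) =
                c₀ * lam ^ j * (s - t m) * a m * lam ^ (i + 1) * lam := by
              rw [show m = j + (i + 1) + 1 by omega]; ring
            have := hwm s h3 le_rfl
            rw [e3] at this
            exact le_of_mul_le_mul_right this hl
          -- the amplitude of the stage `m`
          have ham2 : a m ≤ 2 * a (j + 1 + 1) := by
            have h6 : a m ≤ √(E (j + 1) (t m)) := by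
              have h7 := h.yE m (hS.st m).mem
              rw [(hS.st m).ya] at h7
              have h8 : √(E m (t m)) ≤ √(E (j + 1) (t m)) :=
                Real.sqrt_le_sqrt (Eanti h (by omega) (hS.st m).mem)
              exact (le_abs_self _).trans (h7.trans h8)
            refine h6.trans (hIH.trans (mul_le_mul_of_nonneg_right ?_ ha.le))
            have : (1 / 2 : ℝ) ^ i ≥ 0 := hpow.le
            linarith
          have e4 : c₀ * lam ^ j * Z * (s - t m) = (c₀ * lam ^ j * (s - t m) * a m) *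
              ((1 + 1 / 10 ^ 9) ^ 2 * (121 / 100) ^ 2 * (121 / 100) ^ i * a m) := by
            rw [hZ, e2]
            have : ((11 / 10 : ℝ) ^ (i + 2)) ^ 2 = (121 / 100) ^ 2 * (121 / 100) ^ i := by
              rw [← pow_mul, mul_comm, pow_mul, ← pow_add]
              norm_num
              ring
            rw [mul_pow, mul_pow, this]
            ring
          have h9 : (121 / 100 : ℝ) ^ i / lam ^ (i + 1) ≤ 1 / 10 ^ 13 * (1 / 2) ^ i := by
            have e5 : (121 / 100 : ℝ) ^ i / lam ^ (i + 1) = 1 / lam * (121 / 100 / lam) ^ i := by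
              rw [div_pow (121 / 100 : ℝ) lam i, pow_succ lam i, div_mul_div_comm, one_mul,
                mul_comm lam]
            rw [e5]
            have h10 : 1 / lam ≤ 1 / 10 ^ 13 := one_div_le_one_div_of_le (by norm_num) hlb
            have h11 : (121 / 100 / lam : ℝ) ≤ 1 / 2 := by
              rw [div_le_iff₀ hl]
              linarith [show (10 : ℝ) ^ 13 ≥ 3 by norm_num]
            exact mul_le_mul h10 (pow_le_pow_left₀ (by positivity) h11 i) (by positivity)
              (by norm_num)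
          have h12 : c₀ * lam ^ j * Z * (s - t m) ≤ 1 / 10 ^ 9 * (1 / 2) ^ (i + 1) * a (j + 1 + 1) := by
            rw [e4]
            calc (c₀ * lam ^ j * (s - t m) * a m) *
                  ((1 + 1 / 10 ^ 9) ^ 2 * (121 / 100) ^ 2 * (121 / 100) ^ i * a m)
                ≤ (520 / lam ^ (i + 1)) *
                  ((1 + 1 / 10 ^ 9) ^ 2 * (121 / 100) ^ 2 * (121 / 100) ^ i * a m) :=
                  mul_le_mul_of_nonneg_right h5 (by positivity)
              _ = (520 * (1 + 1 / 10 ^ 9) ^ 2 * (121 / 100) ^ 2) *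
                  ((121 / 100) ^ i / lam ^ (i + 1)) * a m := by ring
              _ ≤ (520 * (1 + 1 / 10 ^ 9) ^ 2 * (121 / 100) ^ 2) *
                  (1 / 10 ^ 13 * (1 / 2) ^ i) * (2 * a (j + 1 + 1)) := by
                  gcongr
              _ = (520 * (1 + 1 / 10 ^ 9) ^ 2 * (121 / 100) ^ 2 * (1 / 10 ^ 13) * 2) *
                  ((1 / 2) ^ i * a (j + 1 + 1)) := by ring
              _ ≤ (1 / 10 ^ 9 * (1 / 2)) * ((1 / 2) ^ i * a (j + 1 + 1)) :=
                  mul_le_mul_of_nonneg_right (by norm_num) (by positivity)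
              _ = _ := by ring
          linarith
      have e6 : (1 / 2 : ℝ) ^ (i + 1) = 1 / 2 * (1 / 2) ^ i := by rw [pow_succ]; ring
      rw [e6] at hstep ⊢
      have h13 : 0 < (1 / 2 : ℝ) ^ i * a (k + 1) := by positivity
      nlinarith

lemma energy_le (hc0 : 0 < c₀) (hlb : 10 ^ 13 ≤ lam) (h : Red lam ε c₀ d T y z E)
    (hS : Stages lam ε c₀ T y z E t a) {n : ℕ} (hn : 1 ≤ n) {s : ℝ} (hs : t n ≤ s) (hsT : s < T) :
    √(E n s) ≤ 1001 / 1000 * a n := by
  obtain ⟨k, rfl⟩ : ∃ k, n = k + 1 := ⟨n - 1, by omega⟩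
  obtain ⟨i, hi⟩ := exists_i hS (k + 1) hsT
  have ha := apos hS (k + 1)
  have h1 := energy_i hc0 hlb h hS k i s hs hsT hi
  have h2 : √(E (k + 1) s) ≤ √(E k s) :=
    Real.sqrt_le_sqrt (Eanti h (by omega) ⟨(hS.st _).mem.1.trans hs, hsT⟩)
  have h3 : (0 : ℝ) < (1 / 2) ^ i := by positivity
  refine h2.trans (h1.trans (mul_le_mul_of_nonneg_right ?_ ha.le))
  linarith

lemma exp_small {x b : ℝ} (hb : 0 < b) (h : b ≤ x) : Real.exp (-x) ≤ 1 / b := by
  have hx : 0 < x := hb.trans_le h
  rw [Real.exp_neg, ← one_div]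
  refine one_div_le_one_div_of_le hb (h.trans ?_)
  linarith [Real.add_one_le_exp x]

/-- while `z n` is negative and small, it grows -/
lemma early (hP : Par lam ε c₀ d)
    (hd : ∀ n, d n ≤ Real.exp (-(2000 * lam)) * (c₀ * lam ^ n) * (1 - 1 / 10 ^ 5) ^ n)
    (h : Red lam ε c₀ d T y z E) (hS : Stages lam ε c₀ T y z E t a) {n : ℕ} (hn : 1 ≤ n) {s : ℝ}
    (hs : t n ≤ s) (hsT : s < T) (hw : c₀ * lam ^ n * a n * (s - t n) ≤ 30)
    (hz : ∀ τ ∈ Icc (t n) s, -(3 / 4 * ε * a n) ≤ z n τ ∧ z n τ ≤ 0) :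
    z n (t n) + 1 / 10 * (c₀ * lam ^ n * ε * a n ^ 2) * (s - t n) ≤ z n s := by
  have hlb := hP.lam_big
  have hc0 := hP.c0
  have hl : 0 < lam := lt_of_lt_of_le (by norm_num) hlb
  have ha := apos hS n
  have ht0 : 0 ≤ t n := (hS.st n).mem.1
  have hε0 : 0 < ε := by rw [hP.eps]; exact Real.exp_pos _
  have hε1 : ε ≤ 1 / 10 ^ 13 := by
    rw [hP.eps]; exact exp_small (by norm_num) (by linarith)
  set c := c₀ * lam ^ n with hc
  have hcp : 0 < c := by positivity
  -- the dissipation is very small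
  have hdn : d n ≤ 1 / 10 ^ 13 * (c * ε * a n) := by
    have h1 := hd n
    have h2 := (hS.st n).ha
    have h3 : Real.exp (-(2000 * lam)) ≤ 1 / 10 ^ 13 * ε := by
      rw [hP.eps, show -(2000 * lam) = -(1600 * lam) + -(400 * lam) by ring, Real.exp_add]
      exact mul_le_mul_of_nonneg_right (exp_small (by norm_num) (by linarith)) (Real.exp_pos _).le
    calc d n ≤ Real.exp (-(2000 * lam)) * c * (1 - 1 / 10 ^ 5) ^ n := h1
      _ ≤ (1 / 10 ^ 13 * ε) * c * a n := by
        have : (0 : ℝ) ≤ (1 - 1 / 10 ^ 5) ^ n := pow_nonneg (by norm_num) n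
        gcongr
      _ = _ := by ring
  have hd0 := hP.d0 n
  -- the next shell
  have hwn : ∀ τ ∈ Icc (t n) s, |y (n + 1) τ| ≤ 1 / 1000 * a n := by
    intro τ hτ
    have hτT : τ ∈ Ico 0 T := ⟨ht0.trans hτ.1, hτ.2.trans_lt hsT⟩
    have h1 := grow1 hc0 hl h n ht0 hτ.1 hτT.2 (Z := (ε * a n) ^ 2) (by positivity) (fun r hr => by
      have h2 := hz r ⟨hr.1, hr.2.trans hτ.2⟩
      refine sq_le_sq' ?_ ?_
      · nlinarith [h2.1, mul_pos hε0 ha]
      · nlinarith [h2.2, mul_pos hε0 ha])
    have h2 := (hS.st n).tl 0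
    simp only [pow_zero, mul_one, add_zero] at h2
    have h3 : Real.exp (-(550 * lam)) ≤ 1 / 10 ^ 13 := exp_small (by norm_num) (by linarith)
    have h4 : c * (ε * a n) ^ 2 * (τ - t n) ≤ 30 * ε ^ 2 * a n := by
      calc c * (ε * a n) ^ 2 * (τ - t n) = (c * a n * (τ - t n)) * (ε ^ 2 * a n) := by ring
        _ ≤ (c * a n * (s - t n)) * (ε ^ 2 * a n) := by
          have := hτ.2
          gcongr
        _ ≤ 30 * (ε ^ 2 * a n) := mul_le_mul_of_nonneg_right hw (by positivity)
        _ = _ := by ring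
    have h5 : ε ^ 2 ≤ 1 / 10 ^ 13 := by nlinarith
    have h6 : Real.exp (-(550 * lam)) * a n ≤ 1 / 10 ^ 13 * a n :=
      mul_le_mul_of_nonneg_right h3 ha.le
    have h7 : 30 * ε ^ 2 * a n ≤ 30 * (1 / 10 ^ 13) * a n := by gcongr
    have h8 := h.yE (n + 1) hτT
    have h9 : (30 * (1 / 10 ^ 13) + 1 / 10 ^ 13 : ℝ) * a n ≤ 1 / 1000 * a n :=
      mul_le_mul_of_nonneg_right (by norm_num) ha.le
    linarith
  have hE : ∀ τ ∈ Icc (t n) s, √(E n τ) ≤ 1001 / 1000 * a n := fun τ hτ =>
    energy_le hc0 hlb h hS hn hτ.1 (hτ.2.trans_lt hsT)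
  -- the amplitude `y n`
  choose! ey hey using h.dy n
  choose! ez hez using h.dz n
  have herr : ∀ τ ∈ Icc (t n) s, d n * √(E n τ) ≤ 2 / 10 ^ 13 * (c * ε * a n ^ 2) := by
    intro τ hτ
    calc d n * √(E n τ) ≤ (1 / 10 ^ 13 * (c * ε * a n)) * (1001 / 1000 * a n) :=
          mul_le_mul hdn (hE τ hτ) (Real.sqrt_nonneg _) (by positivity)
      _ = (1 / 10 ^ 13 * (1001 / 1000)) * (c * ε * a n ^ 2) := by ring
      _ ≤ _ := mul_le_mul_of_nonneg_right (by norm_num) (by positivity)
  have hyn : ∀ τ ∈ Icc (t n) s, 9 / 10 * a n ≤ y n τ := by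
    intro τ hτ
    have h1 := lin_growth (F := fun r => -y n r)
      (F' := fun r => -(fd c₀ lam z n r - c * z n r ^ 2 - ε * c * y n r * z n r + ey r))
      (C := 1 / 10 ^ 5 * (c * a n ^ 2)) ht0 hτ.1 (hτ.2.trans_lt hsT)
      (fun r hr => (hey r hr).2.neg) (fun r hr => ?_)
    · rw [(hS.st n).ya] at h1
      have h2 : 1 / 10 ^ 5 * (c * a n ^ 2) * (τ - t n) ≤ 1 / 10 ^ 5 * 30 * a n := by
        calc 1 / 10 ^ 5 * (c * a n ^ 2) * (τ - t n) = 1 / 10 ^ 5 * (c * a n * (τ - t n)) * a n := by
              ring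
          _ ≤ 1 / 10 ^ 5 * (c * a n * (s - t n)) * a n := by
            have := hτ.2
            gcongr
          _ ≤ 1 / 10 ^ 5 * 30 * a n := by gcongr
      have h3 : (1 / 10 ^ 5 * 30 : ℝ) * a n ≤ 1 / 10 * a n :=
        mul_le_mul_of_nonneg_right (by norm_num) ha.le
      linarith
    · have hr' : r ∈ Icc (t n) s := ⟨hr.1, hr.2.le.trans hτ.2⟩
      have hrT : r ∈ Ico 0 T := ⟨ht0.trans hr.1, hr'.2.trans_lt hsT⟩
      have h2 := (abs_le.1 (hey r hrT).1).1
      have h3 := herr r hr'
      have h4 := hz r hr'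
      have h5 : 0 ≤ fd c₀ lam z n r := by
        rcases n with _ | k
        · exact le_rfl
        · simp only [fd]; positivity
      have h6 := abs_le.1 ((h.yE n hrT).trans (hE r hr'))
      have h7 : z n r ^ 2 ≤ (ε * a n) ^ 2 := by
        refine sq_le_sq' ?_ ?_
        · nlinarith [h4.1, mul_pos hε0 ha]
        · nlinarith [h4.2, mul_pos hε0 ha]
      have h8 : |y n r * z n r| ≤ 1001 / 1000 * a n * (ε * a n) := by
        rw [abs_mul]
        refine mul_le_mul (abs_le.2 h6) ?_ (abs_nonneg _) (by positivity)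
        rw [abs_le]
        constructor
        · nlinarith [h4.1, mul_pos hε0 ha]
        · nlinarith [h4.2, mul_pos hε0 ha]
      have h9 := (abs_le.1 h8).2
      have h10 := (abs_le.1 h8).1
      have h11 : c * z n r ^ 2 ≤ c * (ε * a n) ^ 2 := mul_le_mul_of_nonneg_left h7 hcp.le
      have h12 : ε * c * (y n r * z n r) ≤ ε * c * (1001 / 1000 * a n * (ε * a n)) :=
        mul_le_mul_of_nonneg_left h9 (by positivity)
      have h13 : 0 < c * a n ^ 2 := by positivity
      have h14 : c * (ε * a n) ^ 2 ≤ 1 / 10 ^ 13 * (c * a n ^ 2) := by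
        have : ε ^ 2 ≤ 1 / 10 ^ 13 := by nlinarith
        calc c * (ε * a n) ^ 2 = ε ^ 2 * (c * a n ^ 2) := by ring
          _ ≤ _ := mul_le_mul_of_nonneg_right this h13.le
      have h15 : ε * c * (1001 / 1000 * a n * (ε * a n)) ≤ 2 / 10 ^ 13 * (c * a n ^ 2) := by
        have : ε ^ 2 ≤ 1 / 10 ^ 13 := by nlinarith
        calc ε * c * (1001 / 1000 * a n * (ε * a n)) = 1001 / 1000 * ε ^ 2 * (c * a n ^ 2) := by ring
          _ ≤ 2 / 10 ^ 13 * (c * a n ^ 2) := by
            refine mul_le_mul_of_nonneg_right ?_ h13.le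
            linarith
      have h16 : 2 / 10 ^ 13 * (c * ε * a n ^ 2) ≤ 2 / 10 ^ 13 * (c * a n ^ 2) := by
        have : c * ε * a n ^ 2 ≤ c * a n ^ 2 := by
          have : ε ≤ 1 := hε1.trans (by norm_num)
          nlinarith
        linarith
      have e1 : ε * c * y n r * z n r = ε * c * (y n r * z n r) := by ring
      rw [e1]
      have h17 : (1 / 10 ^ 13 + 2 / 10 ^ 13 + 2 / 10 ^ 13 : ℝ) * (c * a n ^ 2) ≤
          1 / 10 ^ 5 * (c * a n ^ 2) := mul_le_mul_of_nonneg_right (by norm_num) h13.le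
      linarith
  -- the growth of `z n`
  have h1 := lin_growth (F := fun r => -z n r)
    (F' := fun r => -(c * z n r * (y n r - y (n + 1) r) + ε * c * y n r ^ 2 + ez r))
    (C := -(1 / 10 * (c * ε * a n ^ 2))) ht0 hs hsT
    (fun r hr => (hez r hr).2.neg) (fun r hr => ?_)
  · linarith
  · have hr' : r ∈ Icc (t n) s := ⟨hr.1, hr.2.le⟩
    have hrT : r ∈ Ico 0 T := ⟨ht0.trans hr.1, hr'.2.trans_lt hsT⟩
    have h2 := (abs_le.1 (hez r hrT).1).1
    have h3 := herr r hr'
    have h4 := hz r hr'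
    have h5 := hyn r hr'
    have h6 := abs_le.1 (hwn r hr')
    have h7 := (abs_le.1 ((h.yE n hrT).trans (hE r hr'))).2
    -- `z (y - w) ≥ -(3/4) ε a (y + a/1000)`
    have h8 : 0 ≤ y n r - y (n + 1) r := by linarith
    have h9 : -(3 / 4 * ε * a n) * (y n r + 1 / 1000 * a n) ≤ z n r * (y n r - y (n + 1) r) := by
      have h10 : -(3 / 4 * ε * a n) * (y n r - y (n + 1) r) ≤ z n r * (y n r - y (n + 1) r) :=
        mul_le_mul_of_nonneg_right h4.1 h8
      have h11 : 0 < 3 / 4 * ε * a n := by positivity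
      nlinarith
    have h12 : 12 / 100 * a n ^ 2 ≤ y n r ^ 2 - 3 / 4 * a n * (y n r + 1 / 1000 * a n) := by
      nlinarith
    have h13 : c * ε * (12 / 100 * a n ^ 2) ≤
        c * ε * (y n r ^ 2 - 3 / 4 * a n * (y n r + 1 / 1000 * a n)) :=
      mul_le_mul_of_nonneg_left h12 (by positivity)
    have h14 : c * (-(3 / 4 * ε * a n) * (y n r + 1 / 1000 * a n)) ≤
        c * (z n r * (y n r - y (n + 1) r)) := mul_le_mul_of_nonneg_left h9 hcp.le
    have h15 : 0 < c * ε * a n ^ 2 := by positivity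
    have e1 : c * z n r * (y n r - y (n + 1) r) = c * (z n r * (y n r - y (n + 1) r)) := by ring
    have e2 : c * (-(3 / 4 * ε * a n) * (y n r + 1 / 1000 * a n)) + ε * c * y n r ^ 2 =
        c * ε * (y n r ^ 2 - 3 / 4 * a n * (y n r + 1 / 1000 * a n)) := by ring
    have e3 : c * ε * (12 / 100 * a n ^ 2) = 12 / 100 * (c * ε * a n ^ 2) := by ring
    have h16 : (12 / 100 - 2 / 10 ^ 13 : ℝ) * (c * ε * a n ^ 2) ≥ 1 / 10 * (c * ε * a n ^ 2) :=
      mul_le_mul_of_nonneg_right (by norm_num) h15.le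
    rw [e1]
    linarith

/-- the difference of the amplitudes of neighbouring shells -/
lemma diff_le (hc0 : 0 < c₀) (hlb : 10 ^ 13 ≤ lam) (h : Red lam ε c₀ d T y z E)
    (hS : Stages lam ε c₀ T y z E t a) {n : ℕ} (hn : 1 ≤ n) {s : ℝ} (hs : t n ≤ s) (hsT : s < T) :
    |y n s - y (n + 1) s| ≤ 142 / 100 * a n := by
  have hsT' : s ∈ Ico 0 T := ⟨(hS.st n).mem.1.trans hs, hsT⟩
  have ha := apos hS n
  have h1 := energy_le hc0 hlb h hS hn hs hsT
  have h2 : E n s ≤ (1001 / 1000 * a n) ^ 2 := by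
    calc E n s = √(E n s) ^ 2 := (Real.sq_sqrt (h.nonneg n s hsT')).symm
      _ ≤ _ := pow_le_pow_left₀ (Real.sqrt_nonneg _) h1 2
  have h3 := h.le n s hsT'
  have h4 := h.le (n + 1) s hsT'
  have h5 := h.nonneg (n + 1 + 1) s hsT'
  refine abs_le_of_sq_le_sq ?_ (by positivity)
  nlinarith [sq_nonneg (z n s), sq_nonneg (z (n + 1) s), sq_nonneg (y n s + y (n + 1) s),
    sq_nonneg (a n)]

/-- the dissipation is very small -/
lemma diss_le (hd : ∀ n, d n ≤ Real.exp (-(2000 * lam)) * (c₀ * lam ^ n) * (1 - 1 / 10 ^ 5) ^ n)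
    (hc0 : 0 < c₀) (hl : 0 < lam) (hS : Stages lam ε c₀ T y z E t a) (n : ℕ) :
    d n ≤ Real.exp (-(2000 * lam)) * (c₀ * lam ^ n) * a n :=
  (hd n).trans (mul_le_mul_of_nonneg_left (hS.st n).ha (by positivity))

end

theorem t_RES : S_RES := by
  intro lam ε c₀ T d y z E t a hP hd hT h hS n hn
  have hlb := hP.lam_big
  have hc0 := hP.c0
  have hl : 0 < lam := lt_of_lt_of_le (by norm_num) hlb
  have ha := apos hS n
  have ht0 : 0 ≤ t n := (hS.st n).mem.1
  have hε0 : 0 < ε := by rw [hP.eps]; exact Real.exp_pos _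
  have hε1 : ε ≤ 1 / (400 * lam) := by
    rw [hP.eps]; exact exp_small (by positivity) le_rfl
  set c := c₀ * lam ^ n with hc
  have hcp : 0 < c := by positivity
  have hca : 0 < c * a n := by positivity
  have hdn : d n ≤ Real.exp (-(2000 * lam)) * c * a n := diss_le hd hc0 hl hS n
  have hd0 := hP.d0 n
  -- the shell `n` is fed into the shell `n + 1`
  obtain ⟨r, hr, hzr⟩ : ∃ r ∈ Icc (t n) (t (n + 1)), a n ^ 2 / (530 * lam) ≤ z n r ^ 2 := by
    by_contra hcon
    push Not at hcon
    have hg := grow1 hc0 hl h n ht0 (hS.mono n) (hS.st (n + 1)).mem.2 (Z := a n ^ 2 / (530 * lam))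
      (by positivity) (fun r hr => (hcon r hr).le)
    have h1 := (hS.st n).tl 0
    simp only [pow_zero, mul_one, add_zero] at h1
    have h2 : Real.exp (-(550 * lam)) ≤ 1 / 10 ^ 13 := exp_small (by norm_num) (by linarith)
    have h3 : c * (a n ^ 2 / (530 * lam)) * (t (n + 1) - t n) ≤ 520 / 530 * a n := by
      have h4 := hS.dur n
      calc c * (a n ^ 2 / (530 * lam)) * (t (n + 1) - t n)
          = ((t (n + 1) - t n) * (c * a n)) * (a n / (530 * lam)) := by ring
        _ ≤ (520 * lam) * (a n / (530 * lam)) := by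
          refine mul_le_mul_of_nonneg_right ?_ (by positivity)
          exact h4
        _ = _ := by field_simp
    have h5 := h.yE (n + 1) (hS.st (n + 1)).mem
    rw [(hS.st (n + 1)).ya] at h5
    have h6 := (le_abs_self _).trans h5
    have h7 := hS.amp n
    have h8 : Real.exp (-(550 * lam)) * a n ≤ 1 / 10 ^ 13 * a n :=
      mul_le_mul_of_nonneg_right h2 ha.le
    have h9 : (1 / 10 ^ 13 + 520 / 530 : ℝ) * a n < (1 - 1 / 10 ^ 6) * a n :=
      mul_lt_mul_of_pos_right (by norm_num) ha
    linarith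
  have hrT : r < T := hr.2.trans_lt (hS.st (n + 1)).mem.2
  choose! ez hez using h.dz n
  have hcont : ContinuousOn (z n) (Ico 0 T) := fun τ hτ => (hez τ hτ).2.continuousWithinAt
  -- `z n` becomes nonnegative
  obtain ⟨b, hb, hzb⟩ : ∃ b ∈ Icc (t n) r, 0 ≤ z n b := by
    by_contra hcon
    push Not at hcon
    set r' := min r (t n + 30 / (c * a n)) with hr'
    have h30 : 0 < 30 / (c * a n) := by positivity
    have htr' : t n ≤ r' := le_min hr.1 (by linarith)
    have hr'r : r' ≤ r := min_le_left _ _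
    have hw' : ∀ s, s ≤ r' → c * a n * (s - t n) ≤ 30 := by
      intro s hs
      have h1 : s - t n ≤ 30 / (c * a n) := by
        have := min_le_right r (t n + 30 / (c * a n))
        linarith
      calc c * a n * (s - t n) ≤ c * a n * (30 / (c * a n)) := mul_le_mul_of_nonneg_left h1 hca.le
        _ = 30 := by field_simp
    have hboot : ∀ τ ∈ Icc 0 (r' - t n), -(z n (t n + τ)) - 3 / 4 * ε * a n < 0 := by
      refine boot (g := fun τ => -(z n (t n + τ)) - 3 / 4 * ε * a n) ?_ ?_ ?_
      · refine ContinuousOn.sub (ContinuousOn.neg ?_) continuousOn_const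
        refine hcont.comp (continuousOn_const.add continuousOn_id) fun τ hτ => ?_
        exact ⟨by linarith [hτ.1], by linarith [hτ.2]⟩
      · have := (hS.st n).zn
        simp only [add_zero]
        nlinarith [mul_pos hε0 ha]
      · intro τ hτ hall
        have h1 := early hP hd h hS hn (s := t n + τ) (by linarith [hτ.1])
          (by linarith [hτ.2]) (hw' _ (by linarith [hτ.2])) (fun σ hσ => by
            have h2 := hall (σ - t n) ⟨by linarith [hσ.1], by linarith [hσ.2]⟩
            have e : t n + (σ - t n) = σ := by ring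
            simp only [e] at h2
            refine ⟨by linarith, (hcon σ ⟨hσ.1, by linarith [hσ.2, hτ.2]⟩).le⟩)
        have h2 := (hS.st n).zn
        have h3 : 0 ≤ 1 / 10 * (c₀ * lam ^ n * ε * a n ^ 2) * (t n + τ - t n) := by
          have : 0 ≤ t n + τ - t n := by linarith [hτ.1]
          positivity
        nlinarith [mul_pos hε0 ha]
    have hall : ∀ σ ∈ Icc (t n) r', -(3 / 4 * ε * a n) ≤ z n σ ∧ z n σ ≤ 0 := by
      intro σ hσ
      have h2 := hboot (σ - t n) ⟨by linarith [hσ.1], by linarith [hσ.2]⟩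
      have e : t n + (σ - t n) = σ := by ring
      rw [e] at h2
      exact ⟨by linarith, (hcon σ ⟨hσ.1, hσ.2.trans hr'r⟩).le⟩
    rcases le_total r (t n + 30 / (c * a n)) with hcase | hcase
    · have e : r' = r := min_eq_left hcase
      have h1 := hall r' ⟨htr', le_rfl⟩
      rw [e] at h1
      have h2 : z n r ^ 2 ≤ (ε * a n) ^ 2 := by
        refine sq_le_sq' ?_ ?_
        · nlinarith [h1.1, mul_pos hε0 ha]
        · nlinarith [h1.2, mul_pos hε0 ha]
      have h3 : (ε * a n) ^ 2 ≤ (1 / (400 * lam)) ^ 2 * a n ^ 2 := by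
        rw [mul_pow]
        exact mul_le_mul_of_nonneg_right (pow_le_pow_left₀ hε0.le hε1 2) (by positivity)
      have h4 : (1 / (400 * lam)) ^ 2 * a n ^ 2 < a n ^ 2 / (530 * lam) := by
        have h5 : (1 / (400 * lam)) ^ 2 < 1 / (530 * lam) := by
          rw [div_pow, one_pow]
          refine one_div_lt_one_div_of_lt (by positivity) ?_
          nlinarith
        calc (1 / (400 * lam)) ^ 2 * a n ^ 2 < 1 / (530 * lam) * a n ^ 2 :=
              mul_lt_mul_of_pos_right h5 (by positivity)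
          _ = _ := by ring
      linarith
    · have e : r' = t n + 30 / (c * a n) := min_eq_right hcase
      have h1 := early hP hd h hS hn (s := r') htr' (hr'r.trans_lt hrT) (hw' r' le_rfl) hall
      have h2 := hcon r' ⟨htr', hr'r⟩
      have h3 := (hS.st n).zn
      have h4 : 1 / 10 * (c₀ * lam ^ n * ε * a n ^ 2) * (r' - t n) = 3 * (ε * a n) := by
        rw [e, ← hc]
        field_simp
        ring
      rw [h4] at h1
      nlinarith [mul_pos hε0 ha]
  set κ := 146 / 100 * (c * a n) with hκ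
  have hκ0 : 0 < κ := by positivity
  have htime : ∀ s, s < T → ∀ q, t n ≤ q → κ * (s - q) ≤ 761 * lam := by
    intro s hs q hq
    have h1 := time_le hc0 hlb hS n hs
    have h2 : κ * (s - q) ≤ κ * (s - t n) := mul_le_mul_of_nonneg_left (by linarith) hκ0.le
    have h3 : κ * (s - t n) = 146 / 100 * (c₀ * lam ^ n * a n * (s - t n)) := by rw [hκ, hc]; ring
    rw [h3] at h2
    linarith
  have hE : ∀ τ, t n ≤ τ → τ < T → |ez τ| ≤ 1001 / 1000 * Real.exp (-(2000 * lam)) * c * a n ^ 2 := by
    intro τ h1 h2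
    refine (hez τ ⟨ht0.trans h1, h2⟩).1.trans ?_
    calc d n * √(E n τ) ≤ (Real.exp (-(2000 * lam)) * c * a n) * (1001 / 1000 * a n) :=
          mul_le_mul hdn (energy_le hc0 hlb h hS hn h1 h2) (Real.sqrt_nonneg _) (by positivity)
      _ = _ := by ring
  -- lower bound of `z n` after `b`
  have hlow : -(a n / lam) < z n r := by
    set K := a n * Real.exp (-(1990 * lam)) with hK
    have hK0 : 0 < K := by positivity
    have h1 := barrier (F := fun s => -z n s)
      (F' := fun s => -(c * z n s * (y n s - y (n + 1) s) + ε * c * y n s ^ 2 + ez s))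
      (B := fun s => K * Real.exp (κ * (s - b))) (B' := fun s => κ * (K * Real.exp (κ * (s - b))))
      (a := b) (b := r) (ht0.trans hb.1) hrT (fun s hs => (hez s hs).2.neg) (fun s => ?_) ?_ ?_ r
      ⟨hb.2, le_rfl⟩
    · have h2 := htime r hrT b hb.1
      have h3 : K * Real.exp (κ * (r - b)) ≤ a n * Real.exp (-(1229 * lam)) := by
        rw [hK, mul_assoc, ← Real.exp_add]
        refine mul_le_mul_of_nonneg_left (Real.exp_le_exp.2 (by linarith)) ha.le
      have h4 : a n * Real.exp (-(1229 * lam)) < a n / lam := by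
        have h5 : Real.exp (-(1229 * lam)) ≤ 1 / (1229 * lam) := exp_small (by positivity) le_rfl
        have h6 : 1 / (1229 * lam) < 1 / lam := by
          refine one_div_lt_one_div_of_lt hl (by linarith)
        calc a n * Real.exp (-(1229 * lam)) < a n * (1 / lam) :=
              mul_lt_mul_of_pos_left (h5.trans_lt h6) ha
          _ = _ := by ring
      linarith
    · have h2 : HasDerivAt (fun s => κ * (s - b)) (κ * 1) s :=
        ((hasDerivAt_id s).sub_const b).const_mul κ
      have h3 := (h2.exp).const_mul K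
      refine h3.congr_deriv ?_
      ring
    · simp only [sub_self, mul_zero, Real.exp_zero, mul_one]
      linarith
    · intro s hs hEq
      have hs1 : t n ≤ s := hb.1.trans hs.1
      have hsT : s < T := hs.2.trans hrT
      have h2 := (abs_le.1 (diff_le hc0 hlb h hS hn hs1 hsT))
      have h3 := (abs_le.1 (hE s hs1 hsT)).1
      set B := K * Real.exp (κ * (s - b)) with hB
      have hBK : K ≤ B := by
        have : 1 ≤ Real.exp (κ * (s - b)) := Real.one_le_exp (mul_nonneg hκ0.le (by linarith [hs.1]))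
        nlinarith
      have hB0 : 0 < B := hK0.trans_le hBK
      have hz : z n s = -B := by linarith
      -- the error is small compared with `B`
      have h4 : 1001 / 1000 * Real.exp (-(2000 * lam)) * c * a n ^ 2 < 1 / 100 * (c * a n) * B := by
        have h5 : Real.exp (-(2000 * lam)) * 1000 ≤ Real.exp (-(1990 * lam)) := by
          have h6 : Real.exp (-(2000 * lam)) = Real.exp (-(10 * lam)) * Real.exp (-(1990 * lam)) := by
            rw [← Real.exp_add]; congr 1; ring
          have h7 : Real.exp (-(10 * lam)) ≤ 1 / 1000 := exp_small (by norm_num) (by linarith)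
          rw [h6]
          nlinarith [Real.exp_pos (-(1990 * lam))]
        have h8 : 1001 / 1000 * Real.exp (-(2000 * lam)) < 1 / 100 * Real.exp (-(1990 * lam)) := by
          nlinarith [Real.exp_pos (-(1990 * lam)), Real.exp_pos (-(2000 * lam))]
        calc 1001 / 1000 * Real.exp (-(2000 * lam)) * c * a n ^ 2
            = (1001 / 1000 * Real.exp (-(2000 * lam))) * (c * a n ^ 2) := by ring
          _ < (1 / 100 * Real.exp (-(1990 * lam))) * (c * a n ^ 2) :=
            mul_lt_mul_of_pos_right h8 (by positivity)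
          _ = 1 / 100 * (c * a n) * K := by rw [hK]; ring
          _ ≤ 1 / 100 * (c * a n) * B := mul_le_mul_of_nonneg_left hBK (by positivity)
      have h5 : c * B * (y n s - y (n + 1) s) ≤ c * B * (142 / 100 * a n) :=
        mul_le_mul_of_nonneg_left h2.2 (by positivity)
      have h6 : 0 ≤ ε * c * y n s ^ 2 := by positivity
      have e1 : c * z n s * (y n s - y (n + 1) s) = -(c * B * (y n s - y (n + 1) s)) := by
        rw [hz]; ring
      have e2 : c * B * (142 / 100 * a n) = 142 / 100 * (c * a n) * B := by ring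
      have e3 : κ * B = 146 / 100 * (c * a n) * B := by rw [hκ]
      have h7 : 0 < c * a n * B := by positivity
      rw [e1, e3]
      nlinarith
  have hzr' : a n / lam ≤ z n r := by
    have h1 : (a n / lam) ^ 2 ≤ z n r ^ 2 := by
      refine le_trans ?_ hzr
      rw [div_pow]
      refine div_le_div_of_nonneg_left (by positivity) (by positivity) ?_
      nlinarith
    have h2 : a n / lam ≤ |z n r| := by
      have h3 : 0 < a n / lam := by positivity
      exact le_of_sq_le_sq (by rwa [sq_abs]) (abs_nonneg _)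
    rcases abs_cases (z n r) with ⟨h3, _⟩ | ⟨h3, _⟩
    · rw [h3] at h2; exact h2
    · rw [h3] at h2
      linarith
  -- afterwards
  refine ⟨r, ⟨ht0.trans hr.1, hrT⟩, fun s hs => ?_⟩
  have hmain := barrier (F := fun s => -z n s)
    (F' := fun s => -(c * z n s * (y n s - y (n + 1) s) + ε * c * y n s ^ 2 + ez s))
    (B := fun s => -(a n / lam * Real.exp (-(κ * (s - r)))))
    (B' := fun s => κ * (a n / lam * Real.exp (-(κ * (s - r)))))
    (a := r) (b := s) (ht0.trans hr.1) hs.2 (fun s hs => (hez s hs).2.neg) (fun s => ?_) ?_ ?_ s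
    ⟨hs.1, le_rfl⟩
  · have h2 := htime s hs.2 r hr.1
    have h3 : Real.exp (-(761 * lam)) ≤ Real.exp (-(κ * (s - r))) := Real.exp_le_exp.2 (by linarith)
    have h4 : Real.exp (-(39 * lam)) ≤ 1 / lam := by
      refine (exp_small (b := 39 * lam) (by positivity) le_rfl).trans ?_
      exact one_div_le_one_div_of_le hl (by linarith)
    have h5 : Real.exp (-(800 * lam)) * a n ≤ a n / lam * Real.exp (-(κ * (s - r))) := by
      calc Real.exp (-(800 * lam)) * a n = a n * Real.exp (-(39 * lam)) * Real.exp (-(761 * lam)) := by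
            rw [mul_assoc, ← Real.exp_add, mul_comm]; congr 2; ring
        _ ≤ a n * (1 / lam) * Real.exp (-(κ * (s - r))) := by gcongr
        _ = _ := by ring
    have h6 : Real.exp (-(800 * lam)) * (1 - 1 / 10 ^ 5) ^ n ≤ Real.exp (-(800 * lam)) * a n :=
      mul_le_mul_of_nonneg_left (hS.st n).ha (Real.exp_pos _).le
    linarith
  · have h2 : HasDerivAt (fun s => -(κ * (s - r))) (-(κ * 1)) s :=
      (((hasDerivAt_id s).sub_const r).const_mul κ).neg
    have h3 := ((h2.exp).const_mul (a n / lam)).neg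
    refine h3.congr_deriv ?_
    ring
  · simp only [sub_self, mul_zero, neg_zero, Real.exp_zero, mul_one]
    linarith
  · intro τ hτ hEq
    have hτ1 : t n ≤ τ := hr.1.trans hτ.1
    have hτT : τ < T := hτ.2.trans hs.2
    have h2 := (abs_le.1 (diff_le hc0 hlb h hS hn hτ1 hτT))
    have h3 := (abs_le.1 (hE τ hτ1 hτT)).1
    set B := a n / lam * Real.exp (-(κ * (τ - r))) with hB
    have hB0 : 0 < B := by positivity
    have hz : z n τ = B := by linarith
    have hBK : a n * (Real.exp (-(761 * lam)) / lam) ≤ B := by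
      have h4 := htime τ hτT r hr.1
      have h5 : Real.exp (-(761 * lam)) ≤ Real.exp (-(κ * (τ - r))) := Real.exp_le_exp.2 (by linarith)
      calc a n * (Real.exp (-(761 * lam)) / lam) = a n / lam * Real.exp (-(761 * lam)) := by ring
        _ ≤ _ := mul_le_mul_of_nonneg_left h5 (by positivity)
    have h4 : 1001 / 1000 * Real.exp (-(2000 * lam)) * c * a n ^ 2 < 1 / 100 * (c * a n) * B := by
      have h5 : Real.exp (-(2000 * lam)) * 1000 ≤ Real.exp (-(761 * lam)) / lam := by
        have h6 : Real.exp (-(2000 * lam)) =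
            Real.exp (-(1000 * lam)) * Real.exp (-(239 * lam)) * Real.exp (-(761 * lam)) := by
          rw [← Real.exp_add, ← Real.exp_add]; congr 1; ring
        have h7 : Real.exp (-(239 * lam)) ≤ 1 / 1000 := exp_small (by norm_num) (by linarith)
        have h8 : Real.exp (-(1000 * lam)) ≤ 1 / lam := by
          refine (exp_small (b := 1000 * lam) (by positivity) le_rfl).trans ?_
          exact one_div_le_one_div_of_le hl (by linarith)
        rw [h6]
        calc Real.exp (-(1000 * lam)) * Real.exp (-(239 * lam)) * Real.exp (-(761 * lam)) * 1000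
            ≤ (1 / lam) * (1 / 1000) * Real.exp (-(761 * lam)) * 1000 := by gcongr
          _ = _ := by ring
      have h9 : 0 < Real.exp (-(761 * lam)) / lam := by positivity
      have h8 : 1001 / 1000 * Real.exp (-(2000 * lam)) < 1 / 100 * (Real.exp (-(761 * lam)) / lam) := by
        nlinarith [Real.exp_pos (-(2000 * lam))]
      calc 1001 / 1000 * Real.exp (-(2000 * lam)) * c * a n ^ 2
          = (1001 / 1000 * Real.exp (-(2000 * lam))) * (c * a n ^ 2) := by ring
        _ < (1 / 100 * (Real.exp (-(761 * lam)) / lam)) * (c * a n ^ 2) :=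
          mul_lt_mul_of_pos_right h8 (by positivity)
        _ = 1 / 100 * (c * a n) * (a n * (Real.exp (-(761 * lam)) / lam)) := by ring
        _ ≤ 1 / 100 * (c * a n) * B := mul_le_mul_of_nonneg_left hBK (by positivity)
    have h5 : c * B * (-(142 / 100 * a n)) ≤ c * B * (y n τ - y (n + 1) τ) :=
      mul_le_mul_of_nonneg_left h2.1 (by positivity)
    have h6 : 0 ≤ ε * c * y n τ ^ 2 := by positivity
    have e2 : c * B * (-(142 / 100 * a n)) = -(142 / 100 * (c * a n) * B) := by ring
    have e3 : κ * B = 146 / 100 * (c * a n) * B := by rw [hκ]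
    have h7 : 0 < c * a n * B := by positivity
    rw [hz, e3]
    nlinarith

end Pool.Agent.K1H66.NU
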